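import Pool.Agent.H87.EBK.Stmts4

/-!
# Board `ebu`, row LAB4: labels of a graph without `K₄`-minor in given intervals, with a given root
(adapted from helper14's LAB3)
-/

set_option autoImplicit false

namespace Pool.EBK

theorem lab4_symm {a b : ℚ} (h : Rich a b) : Rich b a := by
  obtain ⟨⟨h1, h2, h3⟩, c, ⟨h4, h5, h6⟩, h7, h8⟩ := h
  exact ⟨⟨h2, h1, by rwa [add_comm]⟩, c, ⟨h4, h6, h5⟩, h8, h7⟩

theorem lab4_ext (V : Type) [Fintype V] (G : SimpleGraph V) (r : V) (y1 y2 : V → ℚ)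
    (z : V) (hzr : z ≠ r) [DecidableEq V]
    (l' : {u : V // u ≠ z} → ℚ) (h1 : ∀ u : {u : V // u ≠ z}, y1 u < l' u ∧ l' u < y2 u)
    (h2 : Function.Injective l')
    (h3 : ∀ u w : {u : V // u ≠ z}, G.Adj u w → Rich (l' u) (l' w))
    (h4 : ∀ u : {u : V // u ≠ z}, G.Adj r u → v (l' u) < v (l' ⟨r, hzr.symm⟩))
    (c : ℚ) (hc : y1 z < c ∧ c < y2 z) (hF : ∀ u, l' u ≠ c)
    (hz : ∀ u : {u : V // u ≠ z}, G.Adj z u → Rich (l' u) c ∧ v c < v (l' u)) :
    ∃ l : V → ℚ, Function.Injective l ∧ (∀ u, y1 u < l u ∧ l u < y2 u) ∧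
      (∀ u w, G.Adj u w → Rich (l u) (l w)) ∧ ∀ u, G.Adj r u → v (l u) < v (l r) := by
  refine ⟨fun u => if h : u = z then c else l' ⟨u, h⟩, ?_, ?_, ?_, ?_⟩
  · intro u w huw
    dsimp only at huw
    split_ifs at huw with hu hw hw
    · exact hu.trans hw.symm
    · exact absurd huw.symm (hF _)
    · exact absurd huw (hF _)
    · exact congrArg Subtype.val (h2 huw)
  · intro u
    dsimp only
    split_ifs with hu
    · rw [hu]
      exact hc
    · exact h1 ⟨u, hu⟩
  · intro u w huw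
    dsimp only
    split_ifs with hu hw hw
    · exact absurd (hu.trans hw.symm) huw.ne
    · subst hu
      exact lab4_symm (hz ⟨w, hw⟩ huw).1
    · subst hw
      exact (hz ⟨u, hu⟩ huw.symm).1
    · exact h3 ⟨u, hu⟩ ⟨w, hw⟩ huw
  · intro u hu
    dsimp only
    rw [dif_neg hzr.symm]
    split_ifs with hu'
    · subst hu'
      exact (hz ⟨r, hzr.symm⟩ hu.symm).2
    · exact h4 ⟨u, hu'⟩ hu

/-- **LAB4**. -/
theorem lab4 (hD : DEGR) (hC : CTR) (hS : SUB) (hP : STP5) (hV : VTX4) : LAB4 := by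
  have key : ∀ n : ℕ, ∀ (V : Type) [Fintype V] (G : SimpleGraph V) (r : V) (y1 y2 : V → ℚ),
      Fintype.card V = n → ¬ HasK4Minor G → (∀ u, 0 < y1 u) → (∀ u, y1 u < y2 u) →
      ∃ l : V → ℚ, Function.Injective l ∧ (∀ u, y1 u < l u ∧ l u < y2 u) ∧
        (∀ u w, G.Adj u w → Rich (l u) (l w)) ∧ ∀ u, G.Adj r u → v (l u) < v (l r) := by
    intro n
    induction n using Nat.strong_induction_on with
    | _ n ih =>
    intro V _ G r y1 y2 hn hG hy1 hy2
    classical
    by_cases hone : ∃ w, w ≠ r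
    swap
    · push Not at hone
      have hE : ∀ u w, ¬ G.Adj u w := fun u w huw => huw.ne ((hone u).trans (hone w).symm)
      refine ⟨fun u => (y1 u + y2 u) / 2, fun u w _ => (hone u).trans (hone w).symm, fun u => ?_,
        fun u w huw => absurd huw (hE u w), fun u hu => absurd hu (hE r u)⟩
      have := hy2 u
      constructor <;> dsimp only <;> linarith
    obtain ⟨z, hzr, x, y, hz⟩ := hD V G r hG hone
    have hcard : Fintype.card {u : V // u ≠ z} < n := by
      rw [← hn]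
      exact Fintype.card_subtype_lt (x := z) (by simp)
    by_cases hA : G.Adj z x ∧ G.Adj z y ∧ x ≠ y
    · obtain ⟨hzx, hzy, hxy⟩ := hA
      let H : SimpleGraph {u : V // u ≠ z} :=
        { Adj := fun u w => G.Adj u w ∨ (u.1 = x ∧ w.1 = y) ∨ (u.1 = y ∧ w.1 = x)
          symm := ⟨by
            rintro u w (h | h | h)
            · exact Or.inl h.symm
            · exact Or.inr (Or.inr ⟨h.2, h.1⟩)
            · exact Or.inr (Or.inl ⟨h.2, h.1⟩)⟩
          loopless := ⟨by
            rintro u (h | h | h)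
            · exact G.loopless.irrefl _ h
            · exact hxy (h.1.symm.trans h.2)
            · exact hxy (h.2.symm.trans h.1)⟩ }
      have hH : ¬ HasK4Minor H := fun h => hG (hC V G z x y H hzx hzy hxy (fun u w h => h) h)
      obtain ⟨l', h2, h1, h3, h4⟩ := ih _ hcard _ H ⟨r, hzr.symm⟩ (fun u => y1 u) (fun u => y2 u)
        rfl hH (fun u => hy1 u) (fun u => hy2 u)
      have hr : Rich (l' ⟨x, hzx.ne'⟩) (l' ⟨y, hzy.ne'⟩) := h3 _ _ (Or.inr (Or.inl ⟨rfl, rfl⟩))
      obtain ⟨c, hcB, hc1, hc2, hcx, hcy, hvx, hvy⟩ :=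
        hP _ _ (y1 z) (y2 z) (Finset.univ.image l') hr (hy1 z) (hy2 z)
      refine lab4_ext V G r y1 y2 z hzr l' h1 h2 (fun u w h => h3 u w (Or.inl h))
        (fun u hu => h4 u (Or.inl hu)) c ⟨hc1, hc2⟩
        (fun u hu => hcB (Finset.mem_image.mpr ⟨u, Finset.mem_univ _, hu⟩)) ?_
      intro u hu
      rcases hz u hu with h | h
      · have hu' : u = ⟨x, hzx.ne'⟩ := Subtype.ext h
        rw [hu']
        exact ⟨hcx, hvx⟩
      · have hu' : u = ⟨y, hzy.ne'⟩ := Subtype.ext h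
        rw [hu']
        exact ⟨hcy, hvy⟩
    · have hone : ∀ u w, G.Adj z u → G.Adj z w → u = w := by
        intro u w hu hw
        by_contra huw
        apply hA
        rcases hz u hu with h | h <;> rcases hz w hw with h' | h'
        · exact absurd (h.trans h'.symm) huw
        · subst h h'
          exact ⟨hu, hw, huw⟩
        · subst h h'
          exact ⟨hw, hu, fun h => huw h.symm⟩
        · exact absurd (h.trans h'.symm) huw
      let H : SimpleGraph {u : V // u ≠ z} := G.comap Subtype.val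
      have hH : ¬ HasK4Minor H := fun h => hG (hS V G z h)
      obtain ⟨l', h2, h1, h3, h4⟩ := ih _ hcard _ H ⟨r, hzr.symm⟩ (fun u => y1 u) (fun u => y2 u)
        rfl hH (fun u => hy1 u) (fun u => hy2 u)
      by_cases hN : ∃ x' : {u : V // u ≠ z}, G.Adj z x'
      · obtain ⟨x', hx'⟩ := hN
        obtain ⟨c, hcB, hc1, hc2, hcr, hcv⟩ := hV (l' x') (y1 z) (y2 z) (Finset.univ.image l')
          ((hy1 x').trans (h1 x').1) (hy1 z) (hy2 z)
        refine lab4_ext V G r y1 y2 z hzr l' h1 h2 (fun u w h => h3 u w h)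
          (fun u hu => h4 u hu) c ⟨hc1, hc2⟩
          (fun u hu => hcB (Finset.mem_image.mpr ⟨u, Finset.mem_univ _, hu⟩)) ?_
        intro u hu
        have hu' : u = x' := Subtype.ext (hone _ _ hu hx')
        rw [hu']
        exact ⟨hcr, hcv⟩
      · obtain ⟨c, hcB, hc1, hc2, -⟩ := hV 1 (y1 z) (y2 z) (Finset.univ.image l') one_pos
          (hy1 z) (hy2 z)
        refine lab4_ext V G r y1 y2 z hzr l' h1 h2 (fun u w h => h3 u w h)
          (fun u hu => h4 u hu) c ⟨hc1, hc2⟩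
          (fun u hu => hcB (Finset.mem_image.mpr ⟨u, Finset.mem_univ _, hu⟩)) ?_
        intro u hu
        exact absurd ⟨u, hu⟩ hN
  intro V _ G r y1 y2 hG hy1 hy2
  exact key _ V G r y1 y2 rfl hG hy1 hy2

end Pool.EBK
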